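import Pool.Agent.H51R3.PS.Common
import Pool.Agent.H607R3.PS.Len
import Pool.Agent.H633R3.PS.Loc
import Pool.Agent.H291R3.PSB.Base
import Pool.Agent.H832R3.PS.TaskFL

set_option autoImplicit false

/-!
The ring `RR T α β γ` of the starting modules is Cohen–Macaulay and equidimensional, and its module
`R / cI` of projective dimension at most three has a minimal prime of `R` that lies in no minimal
prime of the module.
-/

namespace Pool.Agent.W416.Equidim

open Pool.Agent.H607R3.PS H51R3.PS IsLocalRing CategoryTheory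

/-! ### Projective dimension from an exact sequence -/

/-- one step of a projective resolution -/
theorem pd_step {R : Type} [CommRing R] {A B : Type} [AddCommGroup A] [Module R A]
    [AddCommGroup B] [Module R B] [Module.Projective R A] (g : A →ₗ[R] B)
    (hg : Function.Surjective g) (n : ℕ)
    (h : HasProjectiveDimensionLT (ModuleCat.of R (LinearMap.ker g)) n) :
    HasProjectiveDimensionLT (ModuleCat.of R B) (n + 1) := by
  let S : ShortComplex (ModuleCat.{0} R) :=
    ShortComplex.mk (ModuleCat.ofHom (LinearMap.ker g).subtype) (ModuleCat.ofHom g)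
      (by ext x; exact x.2)
  have hS : S.ShortExact :=
    { exact := by
        rw [ShortComplex.moduleCat_exact_iff]
        intro x hx
        exact ⟨⟨x, hx⟩, rfl⟩
      mono_f := (ModuleCat.mono_iff_injective _).mpr Subtype.val_injective
      epi_g := (ModuleCat.epi_iff_surjective _).mpr hg }
  have h2 : Projective S.X₂ := by
    change Projective (ModuleCat.of R A)
    exact (IsProjective.iff_projective (R := R) A).mp inferInstance
  have h3 : HasProjectiveDimensionLT S.X₂ (n + 1) :=
    hasProjectiveDimensionLT_of_ge _ 1 (n + 1) (by omega)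
  exact hS.hasProjectiveDimensionLT_X₃ n h h3

/-- transport of bounds along linear equivalences -/
theorem pd_equiv {R : Type} [CommRing R] {A B : Type} [AddCommGroup A] [Module R A]
    [AddCommGroup B] [Module R B] (e : A ≃ₗ[R] B) (n : ℕ)
    (h : HasProjectiveDimensionLT (ModuleCat.of R A) n) :
    HasProjectiveDimensionLT (ModuleCat.of R B) n :=
  hasProjectiveDimensionLT_of_iso e.toModuleIso n

theorem pd_of_ex {R : Type} [CommRing R] {n1 n2 n3 : ℕ} {d1 : (Fin n1 → R) →ₗ[R] R}
    {d2 : (Fin n2 → R) →ₗ[R] (Fin n1 → R)} {d3 : (Fin n3 → R) →ₗ[R] (Fin n2 → R)}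
    (h : Ex d1 d2 d3) :
    HasProjectiveDimensionLE (ModuleCat.of R (R ⧸ (LinearMap.range d1 : Ideal R))) 3 := by
  -- `range d3` is free
  have h0 : HasProjectiveDimensionLT (ModuleCat.of R (LinearMap.range d3)) 1 := by
    refine pd_equiv (LinearEquiv.ofInjective d3 h.inj) 1 ?_
    have : Projective (ModuleCat.of R (Fin n3 → R)) :=
      (IsProjective.iff_projective (R := R) (Fin n3 → R)).mp inferInstance
    infer_instance
  have e2 : LinearMap.range d3 = LinearMap.ker d2.rangeRestrict := by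
    rw [LinearMap.ker_rangeRestrict]
    apply le_antisymm
    · rintro _ ⟨u, rfl⟩
      exact h.z2 u
    · intro v hv
      exact h.ex2 v hv
  rw [e2] at h0
  have h1 := pd_step d2.rangeRestrict d2.surjective_rangeRestrict 1 h0
  have e1 : LinearMap.range d2 = LinearMap.ker d1.rangeRestrict := by
    rw [LinearMap.ker_rangeRestrict]
    apply le_antisymm
    · rintro _ ⟨u, rfl⟩
      exact h.z1 u
    · intro v hv
      exact h.ex1 v hv
  rw [e1] at h1
  have h2 := pd_step d1.rangeRestrict d1.surjective_rangeRestrict 2 h1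
  have e0 : LinearMap.range d1 = LinearMap.ker (Submodule.mkQ (LinearMap.range d1)) := by
    rw [Submodule.ker_mkQ]
  have h2' : HasProjectiveDimensionLT
      (ModuleCat.of R (LinearMap.ker (Submodule.mkQ (LinearMap.range d1)))) 3 := by
    refine pd_equiv (LinearEquiv.ofEq _ _ e0) 3 h2
  exact pd_step (Submodule.mkQ (LinearMap.range d1)) (Submodule.mkQ_surjective _) 3 h2'

/-! ### Regular sequences from `Reg3` -/

theorem smulRegular_quot {R : Type} [CommRing R] (I : Ideal R) (r : R)
    (h : ∀ a : R, r * a ∈ I → a ∈ I) :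
    IsSMulRegular (R ⧸ (I • ⊤ : Submodule R R)) r := by
  have hI : (I • ⊤ : Submodule R R) = I := by
    rw [smul_eq_mul, ← Ideal.one_eq_top, mul_one]
  rw [hI]
  intro a b hab
  obtain ⟨a, rfl⟩ := Ideal.Quotient.mk_surjective a
  obtain ⟨b, rfl⟩ := Ideal.Quotient.mk_surjective b
  have h1 : Ideal.Quotient.mk I (r * a) = Ideal.Quotient.mk I (r * b) := hab
  rw [Ideal.Quotient.eq] at h1 ⊢
  apply h
  rw [mul_sub]
  exact h1

theorem weaklyRegular {R : Type} [CommRing R] {F G H : R} (h : Reg3 F G H) :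
    RingTheory.Sequence.IsWeaklyRegular R [F, G, H] := by
  constructor
  intro i hi
  have hi3 : i < 3 := hi
  interval_cases i
  · apply smulRegular_quot
    intro a ha
    have h0 : F * a = 0 := by simpa using ha
    have : a = 0 := h.hF a h0
    rw [this]
    exact Ideal.zero_mem _
  · apply smulRegular_quot
    intro a ha
    have h0 : G * a ∈ Ideal.span {F} := by simpa using ha
    obtain ⟨b, hb⟩ := Ideal.mem_span_singleton'.mp h0
    obtain ⟨a', rfl⟩ := h.hG a b (by rw [← hb]; ring)
    have : F * a' ∈ Ideal.span {F} := Ideal.mul_mem_right _ _ (Ideal.mem_span_singleton_self F)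
    simpa using this
  · apply smulRegular_quot
    intro a ha
    have h0 : H * a ∈ Ideal.span {F, G} := by
      have : Ideal.ofList (List.take 2 [F, G, H]) = Ideal.span {F, G} := by
        simp [Ideal.ofList, Set.insert_def]
      rw [← this]; exact ha
    obtain ⟨p, q, hpq⟩ := Ideal.mem_span_pair.mp h0
    obtain ⟨p', q', rfl⟩ := h.hH a p q (by rw [← hpq]; ring)
    have : F * p' + G * q' ∈ Ideal.span {F, G} :=
      Ideal.mem_span_pair.mpr ⟨p', q', by ring⟩
    have h2 : Ideal.ofList (List.take 2 [F, G, H]) = Ideal.span {F, G} := by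
      simp [Ideal.ofList, Set.insert_def]
    rw [h2]; exact this

/-! ### The ring -/

section Base

variable {T : Type} [CommRing T] [IsLocalRing T] [IsNoetherianRing T] [IsDomain T] {α β γ : T}

/-- the ring `RR` is Cohen–Macaulay: it has a regular sequence of length three -/
theorem regularSeq [IsLocalRing (RR T α β γ)] (hB : Base T α β γ) :
    RingTheory.Sequence.IsRegular (RR T α β γ)
      [(RR.emb (α ^ 4) : RR T α β γ), RR.emb (β ^ 2), RR.emb (γ ^ 4)] := by
  obtain ⟨hα, hβ, hγ⟩ := mem_max hB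
  refine ⟨weaklyRegular (reg_RR hB.reg), ?_⟩
  intro h
  -- apply the ring homomorphism `rho` to `T`
  have h1 : (1 : RR T α β γ) ∈ (Ideal.ofList
      [(RR.emb (α ^ 4) : RR T α β γ), RR.emb (β ^ 2), RR.emb (γ ^ 4)] • ⊤ :
        Submodule (RR T α β γ) (RR T α β γ)) := by
    rw [← h]; trivial
  have hI : (Ideal.ofList
      [(RR.emb (α ^ 4) : RR T α β γ), RR.emb (β ^ 2), RR.emb (γ ^ 4)] • ⊤ :
        Submodule (RR T α β γ) (RR T α β γ)) = Ideal.ofList
      [(RR.emb (α ^ 4) : RR T α β γ), RR.emb (β ^ 2), RR.emb (γ ^ 4)] := by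
    rw [smul_eq_mul, ← Ideal.one_eq_top, mul_one]
  rw [hI] at h1
  have hle : Ideal.ofList
      [(RR.emb (α ^ 4) : RR T α β γ), RR.emb (β ^ 2), RR.emb (γ ^ 4)] ≤
      (maximalIdeal T).comap (rho : RR T α β γ →+* T) := by
    rw [Ideal.ofList, Ideal.span_le]
    intro u hu
    have hu' : u = RR.emb (α ^ 4) ∨ u = RR.emb (β ^ 2) ∨ u = RR.emb (γ ^ 4) := by
      simpa using hu
    rw [SetLike.mem_coe, Ideal.mem_comap]
    rcases hu' with rfl | rfl | rfl
    · change α ^ 4 ∈ _
      exact Ideal.pow_mem_of_mem _ hα 4 (by norm_num)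
    · change β ^ 2 ∈ _
      exact Ideal.pow_mem_of_mem _ hβ 2 (by norm_num)
    · change γ ^ 4 ∈ _
      exact Ideal.pow_mem_of_mem _ hγ 4 (by norm_num)
  have h2 := hle h1
  rw [Ideal.mem_comap, map_one] at h2
  exact (Ideal.ne_top_iff_one _).mp (maximalIdeal.isMaximal T).ne_top h2

/-- a nonzero element of `T` is a nonzerodivisor of `RR` -/
theorem emb_mem_nonZeroDivisors {t : T} (ht : t ≠ 0) :
    (RR.emb t : RR T α β γ) ∈ nonZeroDivisors (RR T α β γ) := by
  rw [mem_nonZeroDivisors_iff_right]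
  intro u hu
  have h1 := congrArg RR.a hu
  have h2 := congrArg RR.b hu
  have h3 := congrArg RR.c hu
  rw [mul_comm, emb_mul_a] at h1
  rw [mul_comm, emb_mul_b] at h2
  rw [mul_comm, emb_mul_c] at h3
  exact RR.ext ((mul_eq_zero.mp h1).resolve_left ht) ((mul_eq_zero.mp h2).resolve_left ht)
    ((mul_eq_zero.mp h3).resolve_left ht)

/-- all minimal primes of `RR` have dimension three -/
theorem dim_quot_minimal (hB : Base T α β γ) (p : Ideal (RR T α β γ))
    (hp : p ∈ minimalPrimes (RR T α β γ)) : ringKrullDim (RR T α β γ ⧸ p) = 3 := by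
  have hpp : p.IsPrime := hp.1.1
  have hint : Algebra.IsIntegral T (RR T α β γ) := inferInstance
  have hint2 : Algebra.IsIntegral T (RR T α β γ ⧸ p) := inferInstance
  apply le_antisymm
  · rw [← hB.dim]
    exact Pool.Agent.Helper834.EC.ringKrullDim_le_of_integral
  · rw [← hB.dim]
    refine Pool.Agent.Helper834.EC.ringKrullDim_ge_of_integral ?_
    rw [injective_iff_map_eq_zero]
    intro t ht
    by_contra hne
    have ht' : Ideal.Quotient.mk p (RR.emb t : RR T α β γ) = 0 := ht
    rw [Ideal.Quotient.eq_zero_iff_mem] at ht'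
    have hd := Ideal.disjoint_nonZeroDivisors_of_mem_minimalPrimes hp
    exact Set.disjoint_left.mp hd ht' (emb_mem_nonZeroDivisors hne)

/-- the ring `RR` is reduced -/
theorem reduced (hB : Base T α β γ) : IsReduced (RR T α β γ) := by
  obtain ⟨hα, hβ, hγ⟩ := mem_max hB
  have hγ0 : γ ≠ 0 := by
    rintro rfl
    exact hB.notMem (Ideal.zero_mem _)
  have hα0 : α ≠ 0 := by
    rintro rfl
    exact one_ne_zero (hB.reg.hF 1 (by ring))
  -- the discriminant is nonzero
  have hdisc : α ^ 2 + 4 * β * γ ≠ 0 := by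
    intro h
    have h1 : β ^ 2 * (16 * γ ^ 2) = α ^ 4 * 1 := by
      have : α ^ 2 = -(4 * β * γ) := eq_neg_of_add_eq_zero_left h
      calc β ^ 2 * (16 * γ ^ 2) = (-(4 * β * γ)) ^ 2 := by ring
        _ = α ^ 4 * 1 := by rw [← this]; ring
    obtain ⟨a', ha'⟩ := hB.reg.hG _ _ h1
    have h2 : 16 * γ ^ 2 * (1 - β ^ 2 * a') = 0 := by
      have h3 : α ^ 4 = β ^ 2 * (16 * γ ^ 2) := by rw [h1, mul_one]
      calc 16 * γ ^ 2 * (1 - β ^ 2 * a') = 16 * γ ^ 2 - β ^ 2 * (16 * γ ^ 2) * a' := by ring
        _ = 0 := by rw [← h3, ← ha', sub_self]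
    rcases mul_eq_zero.mp h2 with h3 | h3
    · rcases mul_eq_zero.mp h3 with h4 | h4
      · have h5 : (2 : T) ^ 4 = 0 := by rw [← h4]; norm_num
        have h6 : (2 : T) = 0 := pow_eq_zero_iff (by norm_num) |>.mp h5
        have h7 : α ^ 2 = 0 := by
          have : (4 : T) = 2 * 2 := by norm_num
          rw [this, h6] at h
          simpa using h
        exact hα0 (pow_eq_zero_iff (by norm_num) |>.mp h7)
      · exact hγ0 (pow_eq_zero_iff (by norm_num) |>.mp h4)
    · have h4 : (1 : T) ∈ maximalIdeal T := by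
        have : (1 : T) = β ^ 2 * a' := sub_eq_zero.mp h3
        rw [this]
        exact Ideal.mul_mem_right _ _ (Ideal.pow_mem_of_mem _ hβ 2 (by norm_num))
      exact (Ideal.ne_top_iff_one _).mp (maximalIdeal.isMaximal T).ne_top h4
  rw [isReduced_iff_pow_one_lt 2 (by norm_num)]
  intro u hu
  have ea := congrArg RR.a hu
  have eb := congrArg RR.b hu
  have ec := congrArg RR.c hu
  rw [pow_two] at ea eb ec
  have ha : u.a = 0 := mul_self_eq_zero.mp ea
  have hb : α * u.b ^ 2 + 2 * γ * u.b * u.c = 0 := by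
    have : u.a * u.b + u.b * u.a + α * (u.b * u.b) + γ * (u.b * u.c + u.c * u.b) = 0 := eb
    rw [ha] at this
    linear_combination this
  have hc : β * u.b ^ 2 + γ * u.c ^ 2 = 0 := by
    have : u.a * u.c + u.c * u.a + β * (u.b * u.b) + γ * (u.c * u.c) = 0 := ec
    rw [ha] at this
    linear_combination this
  have hb0 : u.b = 0 := by
    by_contra hne
    have h1 : α * u.b + 2 * γ * u.c = 0 := by
      have : u.b * (α * u.b + 2 * γ * u.c) = 0 := by linear_combination hb
      exact (mul_eq_zero.mp this).resolve_left hne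
    have h2 : u.b ^ 2 * (α ^ 2 + 4 * β * γ) = 0 := by
      linear_combination (α * u.b - 2 * γ * u.c) * h1 + 4 * γ * hc
    rcases mul_eq_zero.mp h2 with h3 | h3
    · exact hne (pow_eq_zero_iff (by norm_num) |>.mp h3)
    · exact hdisc h3
  have hc0 : u.c = 0 := by
    rw [hb0] at hc
    have h3 : γ * u.c ^ 2 = 0 := by linear_combination hc
    exact pow_eq_zero_iff (by norm_num) |>.mp ((mul_eq_zero.mp h3).resolve_left hγ0)
  exact RR.ext ha hb0 hc0

theorem dimR_eq [IsLocalRing (RR T α β γ)] (hB : Base T α β γ) :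
    ringKrullDim (RR T α β γ) = 3 := by
  refine le_antisymm (dimR hB) ?_
  rw [← hB.dim]
  have hint : Algebra.IsIntegral T (RR T α β γ) := inferInstance
  refine Pool.Agent.Helper834.EC.ringKrullDim_ge_of_integral ?_
  intro a b h
  exact congrArg RR.a h

theorem w_pow (n : ℕ) : (RR.w ^ (n + 1) : RR T α β γ) = RR.emb (γ ^ n) * RR.w := by
  induction n with
  | zero => simp
  | succ n ih =>
    rw [pow_succ, ih, mul_assoc]
    have hw : (RR.w * RR.w : RR T α β γ) = RR.emb γ * RR.w := by
      ext <;> simp [RR.w]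
    rw [hw, ← mul_assoc, ← map_mul, pow_succ]

/-- there is a minimal prime of `RR` containing `s` -/
theorem exists_minimal (hB : Base T α β γ) :
    ∃ p ∈ minimalPrimes (RR T α β γ), (RR.s : RR T α β γ) ∈ p := by
  have hγ : γ ≠ 0 := by
    rintro rfl
    exact hB.notMem (Ideal.zero_mem _)
  have hw : (RR.w : RR T α β γ) ∉ sInf (minimalPrimes (RR T α β γ)) := by
    intro h
    have h3 : sInf (minimalPrimes (RR T α β γ)) = (⊥ : Ideal (RR T α β γ)).radical :=
      Ideal.sInf_minimalPrimes
    rw [h3] at h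
    obtain ⟨n, hn⟩ := h
    have h4 : (RR.w ^ (n + 1) : RR T α β γ) = 0 := by
      rw [pow_succ, show (RR.w ^ n : RR T α β γ) = 0 from hn, zero_mul]
    rw [w_pow] at h4
    have h5 := congrArg RR.c h4
    rw [emb_mul_c] at h5
    have h6 : γ ^ n * 1 = 0 := h5
    rw [mul_one] at h6
    exact pow_ne_zero n hγ h6
  rw [Submodule.mem_sInf] at hw
  push Not at hw
  obtain ⟨p, hp, hwp⟩ := hw
  have hpp : Ideal.IsPrime p := hp.1.1
  refine ⟨p, hp, ?_⟩
  have : (RR.w * RR.s : RR T α β γ) ∈ p := by rw [RR.ws]; exact p.zero_mem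
  exact (hpp.mem_or_mem this).resolve_left hwp

/-- a prime containing `cI` and `s` is the maximal ideal -/
theorem eq_max_of_le [IsLocalRing (RR T α β γ)] (hFL : TaskFL) (hB : Base T α β γ)
    (q : Ideal (RR T α β γ)) [hq : q.IsPrime]
    (h1 : cI (RR.x : RR T α β γ) RR.y RR.z RR.w RR.s ≤ q) (h2 : (RR.s : RR T α β γ) ∈ q) :
    q = maximalIdeal (RR T α β γ) := by
  have hlen : IsFiniteLength (RR T α β γ) (TensorProduct (RR T α β γ)
      (RR T α β γ ⧸ cI (RR.x : RR T α β γ) RR.y RR.z RR.w RR.s)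
      (RR T α β γ ⧸ (Ideal.span {RR.s} : Ideal (RR T α β γ)))) :=
    Pool.Agent.H607R3.PS.Len.taskLen T α β γ hB
  have hdim := hFL (RR T α β γ) _ hlen
  set J := Module.annihilator (RR T α β γ) (TensorProduct (RR T α β γ)
      (RR T α β γ ⧸ cI (RR.x : RR T α β γ) RR.y RR.z RR.w RR.s)
      (RR T α β γ ⧸ (Ideal.span {RR.s} : Ideal (RR T α β γ)))) with hJ
  have h3 : (Ideal.span {RR.s} : Ideal (RR T α β γ)) ≤ q := by
    rw [Ideal.span_le, Set.singleton_subset_iff]; exact h2
  have hJq : J ≤ q := by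
    intro r hr
    let f := Ideal.Quotient.factorₐ (RR T α β γ) h1
    let g := Ideal.Quotient.factorₐ (RR T α β γ) h3
    let Φ := Algebra.TensorProduct.productMap f g
    have e1 : r • (1 : TensorProduct (RR T α β γ)
      (RR T α β γ ⧸ cI (RR.x : RR T α β γ) RR.y RR.z RR.w RR.s)
      (RR T α β γ ⧸ (Ideal.span {RR.s} : Ideal (RR T α β γ)))) = 0 :=
      Module.mem_annihilator.mp hr _
    have e2 := congrArg Φ e1
    rw [map_smul, map_one, map_zero] at e2
    have e3 : Ideal.Quotient.mk q r = 0 := by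
      rw [← e2, Algebra.smul_def, mul_one]; rfl
    exact Ideal.Quotient.eq_zero_iff_mem.mp e3
  have hqm : q ≤ maximalIdeal (RR T α β γ) := le_maximalIdeal hq.ne_top
  by_contra hne
  have hlt : q < maximalIdeal (RR T α β γ) := lt_of_le_of_ne hqm hne
  rw [ringKrullDim_quotient] at hdim
  let P : PrimeSpectrum (RR T α β γ) := ⟨q, hq⟩
  let Q : PrimeSpectrum (RR T α β γ) := closedPoint (RR T α β γ)
  have hPQ : P < Q := hlt
  let c : LTSeries (PrimeSpectrum.zeroLocus ((J : Ideal (RR T α β γ)) : Set (RR T α β γ))) :=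
    { length := 1
      toFun := ![⟨P, hJq⟩, ⟨Q, hJq.trans hqm⟩]
      step := by
        intro i
        fin_cases i
        exact hPQ }
  have h5 : ((1 : ℕ) : WithBot ℕ∞) ≤ Order.krullDim
      (PrimeSpectrum.zeroLocus ((J : Ideal (RR T α β γ)) : Set (RR T α β γ))) :=
    Order.LTSeries.length_le_krullDim c
  have h6 := h5.trans hdim
  exact absurd h6 (by decide)

/-- the kernel of `RR → T → T/(α, β)` -/
noncomputable def q0 (T : Type) [CommRing T] (α β γ : T) : Ideal (RR T α β γ) :=
  (Ideal.span {α, β} : Ideal T).comap (rho : RR T α β γ →+* T)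

theorem cI_le_q0 : cI (RR.x : RR T α β γ) RR.y RR.z RR.w RR.s ≤ q0 T α β γ := by
  unfold cI
  rw [Ideal.span_le]
  rintro _ ⟨i, rfl⟩
  exact rho_gens i

/-- no prime minimal over `cI` contains `s` -/
theorem not_mem_of_minimal [IsLocalRing (RR T α β γ)] (hFL : TaskFL) (hB : Base T α β γ)
    (q : Ideal (RR T α β γ))
    (hq : q ∈ (cI (RR.x : RR T α β γ) RR.y RR.z RR.w RR.s).minimalPrimes) :
    (RR.s : RR T α β γ) ∉ q := by
  intro hs
  have hqp : q.IsPrime := hq.1.1
  have hqm := eq_max_of_le hFL hB q hq.1.2 hs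
  have hp0 : (q0 T α β γ).IsPrime := by
    have := hB.prime2
    exact Ideal.comap_isPrime _ _
  have hle : q0 T α β γ ≤ q := by
    rw [hqm]
    exact le_maximalIdeal hp0.ne_top
  have hge : q ≤ q0 T α β γ := hq.2 ⟨hp0, cI_le_q0⟩ hle
  have h1 : rho (RR.s : RR T α β γ) ∈ (Ideal.span {α, β} : Ideal T) := hge hs
  exact hB.notMem h1

end Base

end Pool.Agent.W416.Equidim
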