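import Mathlib

set_option autoImplicit false

open PowerSeries CategoryTheory

namespace Pool.Agent.W416.MinimalPrimeNotCovered

/-! ### The ring `R = k[[x,y,z]] / ((x) ∩ (y,z))`, `k = ℚ` -/

/-- `B = k[[z]]`. -/
abbrev B : Type := PowerSeries ℚ
/-- `A = k[[z]][[y]]`. -/
abbrev A : Type := PowerSeries B
/-- `S = k[[z]][[y]][[x]]`. -/
abbrev S : Type := PowerSeries A

/-- the residue map `A → k`. -/
noncomputable def resA : A →+* ℚ :=
  (PowerSeries.constantCoeff (R := ℚ)).comp (PowerSeries.constantCoeff (R := B))

/-- the map `S → k[[x]]` killing `y` and `z`. -/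
noncomputable def toKx : S →+* PowerSeries ℚ := PowerSeries.map resA

/-- the map `S → A` killing `x`. -/
noncomputable def toA : S →+* A := PowerSeries.constantCoeff (R := A)

/-- the map `S → k[[z]]` killing `x` and `y`. -/
noncomputable def toB : S →+* B := (PowerSeries.constantCoeff (R := B)).comp toA

noncomputable def x : S := PowerSeries.X
noncomputable def y : S := PowerSeries.C (PowerSeries.X : A)
noncomputable def z : S := PowerSeries.C (PowerSeries.C (PowerSeries.X : B) : A)

lemma toKx_x : toKx x = PowerSeries.X := by simp [toKx, x]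
lemma toKx_y : toKx y = 0 := by simp [toKx, y, resA]
lemma toKx_z : toKx z = 0 := by simp [toKx, z, resA]
lemma toA_x : toA x = 0 := by simp [toA, x]
lemma toA_y : toA y = PowerSeries.X := by simp [toA, y]
lemma toA_z : toA z = PowerSeries.C (PowerSeries.X : B) := by simp [toA, z]
lemma toB_x : toB x = 0 := by simp [toB, toA, x]
lemma toB_y : toB y = 0 := by simp [toB, toA, y]
lemma toB_z : toB z = PowerSeries.X := by simp [toB, toA, z]

/-- an element killed by `S → k[[z]]` lies in the ideal `(x, y)`. -/
lemma mem_of_toB {f : S} (hf : toB f = 0) : ∃ g h : S, f = x * g + y * h := by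
  have h1 : (PowerSeries.X : S) ∣ f - PowerSeries.C (toA f) := by
    rw [PowerSeries.X_dvd_iff]; simp [toA]
  have h2 : (PowerSeries.X : A) ∣ toA f := by
    rw [PowerSeries.X_dvd_iff]; exact hf
  obtain ⟨g, hg⟩ := h1
  obtain ⟨h, hh⟩ := h2
  refine ⟨g, PowerSeries.C h, ?_⟩
  have : f = (f - PowerSeries.C (toA f)) + PowerSeries.C (toA f) := by ring
  rw [this, hg, hh]
  simp [x, y]

/-- The ideal `(x) ∩ (y,z)`, written as the intersection of two kernels. -/
noncomputable def I : Ideal S := RingHom.ker toA ⊓ RingHom.ker toKx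

abbrev R : Type := S ⧸ I

noncomputable abbrev π : S →+* R := Ideal.Quotient.mk I

lemma I_le_A : I ≤ RingHom.ker toA := inf_le_left
lemma I_le_Kx : I ≤ RingHom.ker toKx := inf_le_right

lemma I_le_B : I ≤ RingHom.ker toB := by
  intro f hf
  have : toA f = 0 := I_le_A hf
  show toB f = 0
  simp [toB, this]

/-- the map `R → k[[z]]` killing `x` and `y`. -/
noncomputable def RtoB : R →+* B := Ideal.Quotient.lift I toB (fun _ ha => RingHom.mem_ker.mp (I_le_B ha))

/-- the map `R → k[[x]]` killing `y` and `z`. -/
noncomputable def RtoKx : R →+* PowerSeries ℚ :=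
  Ideal.Quotient.lift I toKx (fun _ ha => RingHom.mem_ker.mp (I_le_Kx ha))

lemma RtoB_π (f : S) : RtoB (π f) = toB f := Ideal.Quotient.lift_mk _ _ _
lemma RtoKx_π (f : S) : RtoKx (π f) = toKx f := Ideal.Quotient.lift_mk _ _ _

instance : IsNoetherianRing R := inferInstance

instance : Nontrivial R := by
  apply Ideal.Quotient.nontrivial_iff.mpr
  intro h
  have : (1 : S) ∈ I := by rw [h]; trivial
  have h2 : toA 1 = 0 := I_le_A this
  simp at h2

instance : IsLocalRing R := IsLocalRing.of_surjective' π Ideal.Quotient.mk_surjective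

/-- the nonzerodivisor `d = x + y`. -/
noncomputable def d : R := π (x + y)

lemma d_regular : IsSMulRegular R d := by
  rw [isSMulRegular_iff_right_eq_zero_of_smul]
  intro r hr
  obtain ⟨f, rfl⟩ := Ideal.Quotient.mk_surjective r
  have h1 : (x + y) * f ∈ I := by
    rw [← Ideal.Quotient.eq_zero_iff_mem, map_mul]; exact hr
  rw [Ideal.Quotient.eq_zero_iff_mem]
  have hA : toA (x + y) * toA f = 0 := by rw [← map_mul]; exact I_le_A h1
  have hK : toKx (x + y) * toKx f = 0 := by rw [← map_mul]; exact I_le_Kx h1
  rw [map_add, toA_x, toA_y, zero_add] at hA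
  rw [map_add, toKx_x, toKx_y, add_zero] at hK
  refine ⟨?_, ?_⟩
  · rcases mul_eq_zero.mp hA with h | h
    · exact absurd h PowerSeries.X_ne_zero
    · exact h
  · rcases mul_eq_zero.mp hK with h | h
    · exact absurd h PowerSeries.X_ne_zero
    · exact h

lemma d_mem : d ∈ IsLocalRing.maximalIdeal R := by
  rw [IsLocalRing.mem_maximalIdeal, mem_nonunits_iff]
  intro h
  have h2 := h.map RtoB
  rw [d, RtoB_π, map_add, toB_x, toB_y, add_zero] at h2
  exact not_isUnit_zero h2

/-- The module `N = R / (x + y) R`. -/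
abbrev N : Type := QuotSMulTop d R

lemma mul_xy : π x * π y = 0 := by
  rw [← map_mul, Ideal.Quotient.eq_zero_iff_mem]
  refine ⟨?_, ?_⟩
  · show toA (x * y) = 0
    rw [map_mul, toA_x, zero_mul]
  · show toKx (x * y) = 0
    rw [map_mul, toKx_y, mul_zero]

lemma mul_xz : π x * π z = 0 := by
  rw [← map_mul, Ideal.Quotient.eq_zero_iff_mem]
  refine ⟨?_, ?_⟩
  · show toA (x * z) = 0
    rw [map_mul, toA_x, zero_mul]
  · show toKx (x * z) = 0
    rw [map_mul, toKx_z, mul_zero]

lemma x_not_nilp : ¬ IsNilpotent (π x) := by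
  intro h
  have h2 := h.map RtoKx
  rw [RtoKx_π, toKx_x] at h2
  exact PowerSeries.X_ne_zero (IsReduced.eq_zero _ h2)

/-- the prime `(x,y)` of `R`. -/
noncomputable def q0 : Ideal R := RingHom.ker RtoB

instance : q0.IsPrime := RingHom.ker_isPrime _

lemma mem_q0 {f : S} : π f ∈ q0 ↔ toB f = 0 := by
  rw [q0, RingHom.mem_ker, RtoB_π]

lemma d_mem_annihilator : d ∈ Module.annihilator R N := QuotSMulTop.mem_annihilator R d

lemma annihilator_le_q0 : Module.annihilator R N ≤ q0 := by
  intro r hr
  rw [Module.mem_annihilator] at hr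
  have h := hr (Submodule.Quotient.mk (1 : R))
  rw [← Submodule.Quotient.mk_smul, Submodule.Quotient.mk_eq_zero,
    Submodule.mem_smul_pointwise_iff_exists] at h
  obtain ⟨s, -, hs⟩ := h
  have : r = d * s := by simpa using hs.symm
  rw [this]
  apply Ideal.mul_mem_right
  rw [d, mem_q0, map_add, toB_x, toB_y, add_zero]

/-- There are a Noetherian local ring `R` and a nonzero finitely generated `R`-module `N` of
projective dimension one, and a minimal prime `p` of `R` that is contained in no minimal prime
of `N` (no prime minimal over the annihilator of `N`). -/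
theorem result :
    ∃ (R : Type) (_ : CommRing R) (_ : IsNoetherianRing R) (_ : IsLocalRing R)
      (N : Type) (_ : AddCommGroup N) (_ : Module R N),
      Module.Finite R N ∧ Nontrivial N ∧
      CategoryTheory.projectiveDimension (ModuleCat.of R N) = 1 ∧
      ∃ p ∈ minimalPrimes R, ∀ q ∈ (Module.annihilator R N).minimalPrimes, ¬ (p ≤ q) := by
  refine ⟨R, inferInstance, inferInstance, inferInstance, N, inferInstance, inferInstance,
    inferInstance, ?_, ?_, ?_⟩
  · exact nontrivial_quotSMulTop_of_mem_maximalIdeal R d_mem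
  · have h := ModuleCat.projectiveDimension_quotSMulTop_eq_succ_of_isSMulRegular
      (ModuleCat.of R R) d d_regular d_mem
    have h0 : projectiveDimension (ModuleCat.of R R) = 0 :=
      ModuleCat.projectiveDimension_eq_zero_of_projective _
    rw [h0, zero_add] at h
    exact h
  · -- a minimal prime not containing `x`
    have hx : π x ∉ sInf (minimalPrimes R) := by
      intro h
      apply x_not_nilp
      have h3 : sInf (minimalPrimes R) = (⊥ : Ideal R).radical := Ideal.sInf_minimalPrimes
      rw [h3] at h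
      obtain ⟨n, hn⟩ := h
      exact ⟨n, hn⟩
    rw [Submodule.mem_sInf] at hx
    push Not at hx
    obtain ⟨p, hp, hxp⟩ := hx
    have hpp : Ideal.IsPrime p := hp.1.1
    have hyp : π y ∈ p := by
      have : π x * π y ∈ p := by rw [mul_xy]; exact p.zero_mem
      exact (hpp.mem_or_mem this).resolve_left hxp
    have hzp : π z ∈ p := by
      have : π x * π z ∈ p := by rw [mul_xz]; exact p.zero_mem
      exact (hpp.mem_or_mem this).resolve_left hxp
    refine ⟨p, hp, ?_⟩
    intro q hq hpq
    have hqp : q.IsPrime := hq.1.1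
    have hdq : d ∈ q := hq.1.2 d_mem_annihilator
    have hyq : π y ∈ q := hpq hyp
    have hzq : π z ∈ q := hpq hzp
    have hxq : π x ∈ q := by
      have : π x = d - π y := by rw [d, map_add]; ring
      rw [this]; exact q.sub_mem hdq hyq
    -- `q0 ≤ q`
    have hle : q0 ≤ q := by
      intro r hr
      obtain ⟨f, rfl⟩ := Ideal.Quotient.mk_surjective r
      rw [mem_q0] at hr
      obtain ⟨g, h, rfl⟩ := mem_of_toB hr
      rw [map_add, map_mul, map_mul]
      exact q.add_mem (q.mul_mem_right _ hxq) (q.mul_mem_right _ hyq)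
    have hge : q ≤ q0 := hq.2 ⟨inferInstance, annihilator_le_q0⟩ hle
    have : π z ∈ q0 := hge hzq
    rw [mem_q0, toB_z] at this
    exact PowerSeries.X_ne_zero this

end Pool.Agent.W416.MinimalPrimeNotCovered
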